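import Pool.Agent.H705.FP.Stm

/-!
# From the averages to a large value (project FP, part KRO)
-/

set_option autoImplicit false

namespace Pool.Agent.H299.FP

open MeasureTheory Filter Topology Finset Pool.Agent.H705 Pool.Agent.H705.FP

lemma continuous_fej (K : ℕ) : Continuous (fej K) := by
  unfold fej
  fun_prop

theorem T_KRO (hFEJ : P_FEJ) : P_KRO := by
  intro γ β a K N M H E hK hNM ha hH hE0 hE hI hJ1 hJ2
  obtain ⟨G, hG⟩ : ∃ G : ℝ → ℝ, G = fun t => ∏ n ∈ range N, fej K (γ n * t + β n) := ⟨_, rfl⟩
  have hGt : ∀ t, ∏ n ∈ range N, fej K (γ n * t + β n) = G t := fun t => by rw [hG]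
  simp only [hGt] at hI hJ1 hJ2
  have hGc : Continuous G := by
    rw [hG]
    refine continuous_finsetProd _ fun n _ => ?_
    exact (continuous_fej K).comp (by fun_prop)
  have hG0 : ∀ t, 0 ≤ G t := by
    intro t
    rw [hG]
    exact Finset.prod_nonneg fun n _ => (hFEJ K _).1
  obtain ⟨S, hS⟩ : ∃ S : ℝ → ℝ, S = fun t => RO.part (wv a β γ) M t := ⟨_, rfl⟩
  have hS' : ∀ t, S t = ∑ m ∈ range M, a m * Real.cos (γ m * t + β m) := by
    intro t
    rw [hS]
    rfl
  have hSc : Continuous S := by
    have : S = fun t => ∑ m ∈ range M, a m * Real.cos (γ m * t + β m) := funext hS'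
    rw [this]
    fun_prop
  have hHH : H ≤ 2 * H := by linarith
  -- the maximum
  obtain ⟨t₀, ht₀, hmax⟩ := isCompact_Icc.exists_isMaxOn (Set.nonempty_Icc.2 hHH) hSc.continuousOn
  refine ⟨t₀, ht₀.1, ht₀.2, ?_⟩
  have hS0 : RO.part (wv a β γ) M t₀ = S t₀ := by rw [hS]
  rw [hS0]
  set s := S t₀ with hs
  set κ : ℝ := (K : ℝ) / (K + 1) with hκ
  have hκ0 : 0 ≤ κ := by positivity
  have hκ1 : κ ≤ 1 := by
    rw [hκ, div_le_one (by positivity)]
    linarith
  set I : ℝ := (1 / H) * ∫ t in H..2 * H, G t with hIdef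
  set J : ℝ := (1 / H) * ∫ t in H..2 * H, S t * G t with hJdef
  have hJI : J ≤ s * I := by
    have h1 : ∫ t in H..2 * H, S t * G t ≤ ∫ t in H..2 * H, s * G t := by
      apply intervalIntegral.integral_mono_on hHH
      · exact (hSc.mul hGc).intervalIntegrable _ _
      · exact (continuous_const.mul hGc).intervalIntegrable _ _
      · intro t ht
        exact mul_le_mul_of_nonneg_right (hmax ht) (hG0 t)
    rw [intervalIntegral.integral_const_mul] at h1
    calc J ≤ (1 / H) * (s * ∫ t in H..2 * H, G t) :=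
          mul_le_mul_of_nonneg_left h1 (by positivity)
      _ = s * I := by rw [hIdef]; ring
  have hJsum : J = ∑ m ∈ range M, a m *
      ((1 / H) * ∫ t in H..2 * H, Real.cos (γ m * t + β m) * G t) := by
    have h1 : ∀ t, S t * G t = ∑ m ∈ range M, a m * (Real.cos (γ m * t + β m) * G t) := by
      intro t
      rw [hS' t, Finset.sum_mul]
      exact Finset.sum_congr rfl fun m _ => by ring
    rw [hJdef]
    simp only [h1]
    rw [intervalIntegral.integral_finsetSum, Finset.mul_sum]
    · refine Finset.sum_congr rfl fun m _ => ?_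
      rw [intervalIntegral.integral_const_mul]
      ring
    · intro m _
      apply Continuous.intervalIntegrable
      exact continuous_const.mul ((by fun_prop : Continuous fun t : ℝ =>
        Real.cos (γ m * t + β m)).mul hGc)
  have hRM0 : 0 ≤ RO.R a M := Finset.sum_nonneg fun n _ => ha n
  have hRN0 : 0 ≤ RO.R a N := Finset.sum_nonneg fun n _ => ha n
  have hRNM : RO.R a N ≤ RO.R a M :=
    Finset.sum_le_sum_of_subset_of_nonneg (Finset.range_mono hNM.le) fun n _ _ => ha n
  have hJlow : κ * RO.R a N - E * RO.R a M ≤ J := by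
    have h1 : ∀ m ∈ range M, a m * ((if m < N then κ else 0) - E) ≤
        a m * ((1 / H) * ∫ t in H..2 * H, Real.cos (γ m * t + β m) * G t) := by
      intro m hm
      apply mul_le_mul_of_nonneg_left _ (ha m)
      by_cases hmN : m < N
      · rw [if_pos hmN]
        have h2 := (abs_le.1 (hJ1 m hmN)).1
        linarith
      · rw [if_neg hmN]
        have h2 := (abs_le.1 (hJ2 m (not_lt.1 hmN) (mem_range.1 hm))).1
        linarith
    have h3 : ∑ m ∈ range M, a m * ((if m < N then κ else 0) - E) =
        κ * RO.R a N - E * RO.R a M := by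
      simp only [mul_sub, Finset.sum_sub_distrib]
      congr 1
      · unfold RO.R
        rw [Finset.mul_sum, ← Finset.sum_subset (Finset.range_mono hNM.le)]
        · refine Finset.sum_congr rfl fun m hm => ?_
          rw [if_pos (mem_range.1 hm)]
          ring
        · intro m _ hm
          rw [if_neg (fun h => hm (mem_range.2 h)), mul_zero]
      · unfold RO.R
        rw [Finset.mul_sum]
        exact Finset.sum_congr rfl fun m _ => by ring
    rw [hJsum, ← h3]
    exact Finset.sum_le_sum h1
  set R := RO.R a M with hR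
  set f := κ * RO.R a N with hf
  have hf0 : 0 ≤ f := mul_nonneg hκ0 hRN0
  have hfR : f ≤ R := by
    calc f ≤ 1 * RO.R a N := mul_le_mul_of_nonneg_right hκ1 hRN0
      _ ≤ R := by rw [one_mul]; exact hRNM
  have hER : 0 ≤ E * R := mul_nonneg hE0 hRM0
  obtain ⟨hI1, hI2⟩ := abs_le.1 hI
  rcases le_or_gt 0 s with hs0 | hs0
  · have h1 : s * I ≤ s * (1 + E) := mul_le_mul_of_nonneg_left (by linarith) hs0
    have h2 : f - E * R ≤ s * (1 + E) := by linarith
    have h3 : (f - 3 * E * R) * (1 + E) ≤ s * (1 + E) := by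
      have h4 : E * f ≤ E * R := mul_le_mul_of_nonneg_left hfR hE0
      have h5 : 0 ≤ E * (E * R) := mul_nonneg hE0 hER
      nlinarith
    exact le_of_mul_le_mul_right h3 (by linarith)
  · have h1 : s * I ≤ s * (1 - E) := mul_le_mul_of_nonpos_left (by linarith) hs0.le
    have h2 : s * (1 - E) ≤ s / 2 := by nlinarith
    have h3 : 3 * E * R = 3 * (E * R) := by ring
    rw [h3]
    linarith

end Pool.Agent.H299.FP
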